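import Mathlib

set_option autoImplicit false

/-!
A finite set with small doubling in a real vector space: dilates and classes.

`dil_card`: `|P + 2^i P| ≤ K^(3i+1) |P|` if `|P + P| ≤ K |P|` (Ruzsa's triangle inequality).
`class_card`: hence some class modulo `2^i M`, `M` a subgroup containing `P`, contains at least
`|P| / K^(3i+1)` points of `P`.
-/

namespace Pool.H77.SZ

open Finset
open scoped Pointwise

variable {E : Type*} [AddCommGroup E] [Module ℝ E] [DecidableEq E]

omit [DecidableEq E] in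
theorem smul_inj (i : ℕ) : Function.Injective (fun v : E => (2 : ℝ) ^ i • v) :=
  smul_right_injective E (by positivity)

/-- The dilate `2^i P`. -/
def dil (i : ℕ) (P : Finset E) : Finset E := P.image (fun v => (2 : ℝ) ^ i • v)

theorem dil_card_eq (i : ℕ) (P : Finset E) : (dil i P).card = P.card :=
  card_image_of_injective _ (smul_inj i)

theorem dil_zero (P : Finset E) : dil 0 P = P := by
  unfold dil
  simp

theorem dil_add (i : ℕ) (P Q : Finset E) : dil i (P + Q) = dil i P + dil i Q := by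
  unfold dil
  ext v
  simp only [mem_image, mem_add]
  constructor
  · rintro ⟨w, ⟨a, ha, b, hb, rfl⟩, rfl⟩
    exact ⟨_, ⟨a, ha, rfl⟩, _, ⟨b, hb, rfl⟩, (smul_add _ _ _).symm⟩
  · rintro ⟨_, ⟨a, ha, rfl⟩, _, ⟨b, hb, rfl⟩, rfl⟩
    exact ⟨a + b, ⟨a, ha, b, hb, rfl⟩, smul_add _ _ _⟩

theorem dil_succ (i : ℕ) (P : Finset E) : dil (i + 1) P = dil i (dil 1 P) := by
  unfold dil
  rw [image_image]
  congr 1
  ext v
  simp only [Function.comp_apply, smul_smul]
  rw [pow_one, pow_succ]

theorem three_card (P : Finset E) (hP : P.Nonempty) (K : ℝ)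
    (hK : ((P + P).card : ℝ) ≤ K * P.card) : ((P + dil 1 P).card : ℝ) ≤ K ^ 3 * P.card := by
  have h1 : P + dil 1 P ⊆ 3 • P := by
    intro v hv
    rw [mem_add] at hv
    obtain ⟨a, ha, w, hw, rfl⟩ := hv
    unfold dil at hw
    rw [mem_image] at hw
    obtain ⟨b, hb, rfl⟩ := hw
    have e : (3 : ℕ) • P = P + (P + P) := by
      rw [show (3 : ℕ) = 1 + (1 + 1) from rfl, add_nsmul, add_nsmul, one_nsmul]
    rw [e, pow_one, two_smul]
    exact add_mem_add ha (add_mem_add hb hb)
  have hP0 : (0 : ℝ) < P.card := by exact_mod_cast hP.card_pos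
  have h2 := pluennecke_ruzsa_inequality_nsmul_add hP P 3
  have h3 : ((3 • P).card : ℝ) ≤ (((P + P).card : ℝ) / P.card) ^ 3 * P.card := by
    have h5 : (((((3 • P).card : ℕ) : ℚ≥0) : ℚ≥0) : ℝ)
        ≤ ((((((P + P).card : ℕ) : ℚ≥0) / ((P.card : ℕ) : ℚ≥0)) ^ 3 * ((P.card : ℕ) : ℚ≥0) : ℚ≥0) : ℝ) :=
      NNRat.cast_le.2 h2
    push_cast at h5
    exact h5
  have h4 : ((P + P).card : ℝ) / P.card ≤ K := by
    rw [div_le_iff₀ hP0]; exact hK
  calc ((P + dil 1 P).card : ℝ) ≤ ((3 • P).card : ℝ) := by exact_mod_cast card_le_card h1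
    _ ≤ (((P + P).card : ℝ) / P.card) ^ 3 * P.card := h3
    _ ≤ K ^ 3 * P.card := by gcongr

theorem dil_card (P : Finset E) (hP : P.Nonempty) (K : ℝ)
    (hK : ((P + P).card : ℝ) ≤ K * P.card) (i : ℕ) :
    ((P + dil i P).card : ℝ) ≤ K ^ (3 * i + 1) * P.card := by
  have hP0 : (0 : ℝ) < P.card := by exact_mod_cast hP.card_pos
  have hK0 : 0 ≤ K := by
    have h1 : (0 : ℝ) ≤ K * P.card := le_trans (Nat.cast_nonneg _) hK
    by_contra h
    push Not at h
    have := mul_neg_of_neg_of_pos h hP0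
    linarith
  induction i with
  | zero => simpa [dil_zero] using hK
  | succ i ih =>
    have h1 := ruzsa_triangle_inequality_add_add_add P (dil i P) (dil (i + 1) P)
    have h2 : dil i P + dil (i + 1) P = dil i (P + dil 1 P) := by
      rw [dil_succ, dil_add]
    rw [h2, dil_card_eq, dil_card_eq] at h1
    have h3 : ((P + dil (i + 1) P).card : ℝ) * P.card
        ≤ ((P + dil i P).card : ℝ) * ((P + dil 1 P).card : ℝ) := by exact_mod_cast h1
    have h4 := three_card P hP K hK
    have h5 : ((P + dil (i + 1) P).card : ℝ) * P.card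
        ≤ (K ^ (3 * (i + 1) + 1) * P.card) * P.card := by
      calc ((P + dil (i + 1) P).card : ℝ) * P.card
          ≤ ((P + dil i P).card : ℝ) * ((P + dil 1 P).card : ℝ) := h3
        _ ≤ (K ^ (3 * i + 1) * P.card) * (K ^ 3 * P.card) := by gcongr
        _ = (K ^ (3 * (i + 1) + 1) * P.card) * P.card := by ring
    exact le_of_mul_le_mul_right h5 hP0

/-- Some class modulo `2^i M` contains many points of `P`. -/
theorem class_card (M : AddSubgroup E) (P : Finset E) (hP : P.Nonempty) (hPM : ∀ v ∈ P, v ∈ M)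
    (K : ℝ) (hK : ((P + P).card : ℝ) ≤ K * P.card) (i : ℕ) :
    ∃ v₀ ∈ P, ∃ C : Finset E, C ⊆ P ∧ (∀ v ∈ C, ∃ w ∈ M, v - v₀ = (2 : ℝ) ^ i • w) ∧
      (P.card : ℝ) ≤ K ^ (3 * i + 1) * C.card := by
  classical
  -- equivalence classes
  let r : E → E → Prop := fun v v' => ∃ w ∈ M, v - v' = (2 : ℝ) ^ i • w
  have hrefl : ∀ v, r v v := fun v => ⟨0, M.zero_mem, by simp⟩
  have hsymm : ∀ v v', r v v' → r v' v := by
    rintro v v' ⟨w, hw, h⟩
    exact ⟨-w, M.neg_mem hw, by rw [smul_neg, ← h, neg_sub]⟩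
  have htrans : ∀ a b c, r a b → r b c → r a c := by
    rintro a b c ⟨w, hw, h⟩ ⟨w', hw', h'⟩
    exact ⟨w + w', M.add_mem hw hw', by rw [smul_add, ← h, ← h']; abel⟩
  let s : Setoid E := ⟨r, hrefl, fun {a b} h => hsymm a b h, fun {a b c} h h' => htrans a b c h h'⟩
  let q : E → Quotient s := fun v => Quotient.mk s v
  have hq : ∀ a b, q a = q b ↔ r a b := fun a b => Quotient.eq (r := s)
  set R := P.image q with hR
  have hRne : R.Nonempty := hP.image q
  -- choose representatives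
  have hrep : ∀ c ∈ R, ∃ v ∈ P, q v = c := by
    intro c hc
    rw [hR, mem_image] at hc
    obtain ⟨v, hv, rfl⟩ := hc
    exact ⟨v, hv, rfl⟩
  choose! ρ hρ using hrep
  have h1 : R.card * P.card ≤ (P + dil i P).card := by
    rw [← card_product]
    refine card_le_card_of_injOn (fun z => ρ z.1 + (2 : ℝ) ^ i • z.2) ?_ ?_
    · rintro ⟨c, v⟩ hz
      simp only [coe_product, Set.mem_prod, mem_coe] at hz
      exact add_mem_add (hρ c hz.1).1 (mem_image_of_mem _ hz.2)
    · rintro ⟨c, v⟩ hz ⟨c', v'⟩ hz' h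
      simp only [coe_product, Set.mem_prod, mem_coe] at hz hz'
      have h2 : ρ c - ρ c' = (2 : ℝ) ^ i • (v' - v) := by
        have h3 : ρ c + (2 : ℝ) ^ i • v = ρ c' + (2 : ℝ) ^ i • v' := h
        rw [smul_sub]
        have h4 : ρ c = ρ c' + (2 : ℝ) ^ i • v' - (2 : ℝ) ^ i • v := by rw [← h3]; abel
        rw [h4]; abel
      have h5 : q (ρ c) = q (ρ c') :=
        (hq _ _).2 ⟨v' - v, M.sub_mem (hPM _ hz'.2) (hPM _ hz.2), h2⟩
      rw [(hρ c hz.1).2, (hρ c' hz'.1).2] at h5
      subst h5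
      rw [sub_self] at h2
      have h6 : v' - v = 0 := by
        have h7 : (2 : ℝ) ^ i • (v' - v) = (2 : ℝ) ^ i • (0 : E) := by rw [← h2, smul_zero]
        exact smul_inj i h7
      rw [sub_eq_zero] at h6
      rw [h6]
  have hP0 : (0 : ℝ) < P.card := by exact_mod_cast hP.card_pos
  have h2 : (R.card : ℝ) ≤ K ^ (3 * i + 1) := by
    have h3 : (R.card : ℝ) * P.card ≤ K ^ (3 * i + 1) * P.card :=
      le_trans (by exact_mod_cast h1) (dil_card P hP K hK i)
    exact le_of_mul_le_mul_right h3 hP0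
  -- the largest class
  obtain ⟨c, hc, hmax⟩ := exists_max_image R (fun c => (P.filter (fun v => q v = c)).card) hRne
  refine ⟨ρ c, (hρ c hc).1, P.filter (fun v => q v = c), filter_subset _ _, ?_, ?_⟩
  · intro v hv
    rw [mem_filter] at hv
    have h3 : q v = q (ρ c) := by rw [hv.2, (hρ c hc).2]
    exact (hq _ _).1 h3
  · have h3 : P.card = ∑ c' ∈ R, (P.filter (fun v => q v = c')).card :=
      card_eq_sum_card_image q P
    have h4 : P.card ≤ R.card * (P.filter (fun v => q v = c)).card := by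
      rw [h3, ← smul_eq_mul]
      exact sum_le_card_nsmul _ _ _ hmax
    calc (P.card : ℝ) ≤ (R.card : ℝ) * ((P.filter (fun v => q v = c)).card : ℝ) := by
          exact_mod_cast h4
      _ ≤ K ^ (3 * i + 1) * ((P.filter (fun v => q v = c)).card : ℝ) := by gcongr

end Pool.H77.SZ
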