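import Pool.Agent.H77.SZ.Main
import Pool.Agent.H84.CP.Bcd

set_option autoImplicit false

/-!
The converse direction: a Bohr set with at most `t` frequencies and radius at least `1/t` contains
a Bohr set of radius `1/(8 (26 t))` with at least `(26 t)^(-26 t) N` elements.
-/

namespace Pool.H77.SZ

open Finset Pool.H84.CP Pool.H84.IT

variable {N : ℕ} [NeZero N]

theorem bohr_to_size (t : ℝ) (ht : 2 ≤ t) (Γ : Finset (ZMod N)) (ε : ℝ)
    (hΓ : (Γ.card : ℝ) ≤ t) (hε : 1 / t ≤ ε) (P : Finset (ZMod N))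
    (hP : ∀ x, x ∈ P ↔ ∀ γ ∈ Γ, bn (γ * x) ≤ 1 / (8 * (26 * t))) :
    (26 * t) ^ (-(26 * t)) * (N : ℝ) ≤ (P.card : ℝ) ∧
      ∀ x ∈ P, ∀ γ ∈ Γ, bn (γ * x) ≤ ε := by
  have ht0 : 0 < t := by linarith
  obtain ⟨Y, hY⟩ : ∃ Y : ℝ, Y = 26 * t := ⟨_, rfl⟩
  have hY52 : 52 ≤ Y := by rw [hY]; linarith
  have hY0 : 0 < Y := by linarith
  constructor
  · have h1 := bohr_card Γ (1 / (8 * (26 * t))) (by positivity) P hP
    rw [← hY] at h1 ⊢
    have h2 : 1 + 1 / (1 / (8 * Y)) ≤ Y ^ 26 := by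
      rw [one_div_one_div]
      have h3 : Y ^ 26 = Y ^ 24 * Y * Y := by ring
      have h4 : (1 : ℝ) ≤ Y ^ 24 := one_le_pow₀ (by linarith)
      have h5 : 52 * Y ≤ Y ^ 24 * Y * Y := by
        calc 52 * Y ≤ 1 * Y * Y := by nlinarith
          _ ≤ Y ^ 24 * Y * Y := by gcongr
      linarith
    have h3 : (1 + 1 / (1 / (8 * Y))) ^ Γ.card ≤ Y ^ Y := by
      calc (1 + 1 / (1 / (8 * Y))) ^ Γ.card ≤ (Y ^ 26) ^ Γ.card :=
            pow_le_pow_left₀ (by positivity) h2 _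
        _ = (Y ^ 26) ^ ((Γ.card : ℕ) : ℝ) := (Real.rpow_natCast _ _).symm
        _ ≤ (Y ^ 26) ^ t := Real.rpow_le_rpow_of_exponent_le (one_le_pow₀ (by linarith)) hΓ
        _ = Y ^ Y := by
            rw [← Real.rpow_natCast Y 26, ← Real.rpow_mul hY0.le]
            congr 1
            rw [hY]
            push_cast
            ring
    have h4 : (N : ℝ) ≤ (P.card : ℝ) * Y ^ Y :=
      h1.trans (mul_le_mul_of_nonneg_left h3 (Nat.cast_nonneg _))
    rw [Real.rpow_neg hY0.le, inv_mul_le_iff₀ (Real.rpow_pos_of_pos hY0 _)]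
    linarith
  · intro x hx γ hγ
    refine ((hP x).1 hx γ hγ).trans (le_trans ?_ hε)
    apply one_div_le_one_div_of_le ht0
    linarith

end Pool.H77.SZ
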