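import Pool.Agent.H77.SZ.Shr
import Pool.Agent.H84.IT.SumB
import Pool.Agent.H84.IT.SumC

set_option autoImplicit false

/-!
The size of a Bohr set controls its rank.

`size_to_bohr`: a Bohr set with ANY number of frequencies, radii at most `1/(8s)` and at least
`s^(-t) N` elements, `2 ≤ s ≤ t`, contains a Bohr set with at most `1560 t` frequencies and radius
at least `1/(1560 t)`.

Proof. For some `j` with `2^j ≤ s` the doubling of `B(Γ, 2^j ε)` is at most `2^t` (otherwise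
`|B(Γ, 2^(J+1) ε)| > N`). By `shrink` the set `T = B(Γ, 2 2^j ε / 2^i)` has at least
`2^(-(3i+1)t) s^(-t) N` elements, and `kT - kT` is in `B(Γ, ε)` if `2^i ≥ 4 k s`. Then
`sumset_to_bohr`.
-/

namespace Pool.H77.SZ

open Finset Pool.H84.CP Pool.H84.IT

variable {N : ℕ} [NeZero N]

theorem scale (s t : ℝ) (hs : 2 ≤ s) (hst : s ≤ t) (Γ : Finset (ZMod N)) (ε : ZMod N → ℝ)
    (hcard : s ^ (-t) * (N : ℝ) ≤ ((bset Γ ε).card : ℝ)) :
    ∃ j : ℕ, (2 : ℝ) ^ j ≤ s ∧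
      ((bset Γ (fun γ => (2 : ℝ) ^ (j + 1) * ε γ)).card : ℝ)
        ≤ (2 : ℝ) ^ t * (bset Γ (fun γ => (2 : ℝ) ^ j * ε γ)).card := by
  have hs0 : 0 < s := by linarith
  have ht0 : 0 < t := by linarith
  have hNpos : (0 : ℝ) < (N : ℝ) := by exact_mod_cast Nat.pos_of_ne_zero (NeZero.ne N)
  obtain ⟨J, hJ1, hJ2⟩ := exists_nat_pow_near (x := s) (y := 2) (by linarith) (by norm_num)
  by_contra hno
  push Not at hno
  have hlow : ∀ j : ℕ, j ≤ J + 1 → ((2 : ℝ) ^ t) ^ j * ((bset Γ ε).card : ℝ)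
      ≤ ((bset Γ (fun γ => (2 : ℝ) ^ j * ε γ)).card : ℝ) := by
    intro j
    induction j with
    | zero => intro _; simp
    | succ j ih =>
      intro hj
      have h1 : (2 : ℝ) ^ j ≤ s := by
        refine le_trans ?_ hJ1
        exact pow_le_pow_right₀ (by norm_num) (by omega)
      have h2 := (hno j h1).le
      have h3 := ih (by omega)
      have h4 : (0 : ℝ) < (2 : ℝ) ^ t := Real.rpow_pos_of_pos (by norm_num) _
      calc ((2 : ℝ) ^ t) ^ (j + 1) * ((bset Γ ε).card : ℝ)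
          = (2 : ℝ) ^ t * (((2 : ℝ) ^ t) ^ j * ((bset Γ ε).card : ℝ)) := by ring
        _ ≤ (2 : ℝ) ^ t * ((bset Γ (fun γ => (2 : ℝ) ^ j * ε γ)).card : ℝ) := by gcongr
        _ ≤ _ := h2
  have h1 := hlow (J + 1) le_rfl
  have h2 : ((bset Γ (fun γ => (2 : ℝ) ^ (J + 1) * ε γ)).card : ℝ) ≤ N := by
    have := card_le_univ (bset Γ (fun γ => (2 : ℝ) ^ (J + 1) * ε γ))
    rw [ZMod.card] at this
    exact_mod_cast this
  have h3 : ((2 : ℝ) ^ t) ^ (J + 1) = ((2 : ℝ) ^ (J + 1)) ^ t := by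
    rw [← Real.rpow_natCast, ← Real.rpow_mul (by norm_num), ← Real.rpow_natCast (2 : ℝ) (J + 1),
      ← Real.rpow_mul (by norm_num), mul_comm]
  have h4 : s ^ t < ((2 : ℝ) ^ (J + 1)) ^ t := Real.rpow_lt_rpow hs0.le hJ2 ht0
  have h5 : s ^ t * (s ^ (-t) * (N : ℝ)) = N := by
    rw [← mul_assoc, ← Real.rpow_add hs0, add_neg_cancel, Real.rpow_zero, one_mul]
  have h6 : 0 < s ^ (-t) * (N : ℝ) := by positivity
  have h7 : (N : ℝ) < (N : ℝ) := by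
    calc (N : ℝ) = s ^ t * (s ^ (-t) * (N : ℝ)) := h5.symm
      _ < ((2 : ℝ) ^ (J + 1)) ^ t * (s ^ (-t) * (N : ℝ)) := by gcongr
      _ ≤ ((2 : ℝ) ^ (J + 1)) ^ t * ((bset Γ ε).card : ℝ) := by gcongr
      _ = ((2 : ℝ) ^ t) ^ (J + 1) * ((bset Γ ε).card : ℝ) := by rw [h3]
      _ ≤ _ := h1
      _ ≤ N := h2
  exact lt_irrefl _ h7

theorem num (s t k : ℝ) (hs : 2 ≤ s) (hst : s ≤ t) (hk0 : 0 ≤ k)
    (hk : k ≤ (10 * (60 * t)) ^ 8 + 1) : 2 * (8 * k * s) ^ 3 * s ≤ (60 * t) ^ 60 := by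
  obtain ⟨u, hu⟩ : ∃ u : ℝ, u = 60 * t := ⟨_, rfl⟩
  have hu120 : 120 ≤ u := by rw [hu]; linarith
  have hsu : s ≤ u / 60 := by rw [hu]; linarith
  rw [← hu] at hk ⊢
  have h1 : k ≤ 2 * 10 ^ 8 * u ^ 8 := by
    have h2 : (1 : ℝ) ≤ 10 ^ 8 * u ^ 8 := by
      have : (1 : ℝ) ≤ u ^ 8 := one_le_pow₀ (by linarith)
      linarith
    have h3 : (10 * u) ^ 8 = 10 ^ 8 * u ^ 8 := by ring
    linarith
  have h2 : 8 * k * s ≤ 10 ^ 9 * u ^ 9 := by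
    calc 8 * k * s ≤ 8 * (2 * 10 ^ 8 * u ^ 8) * (u / 60) := by gcongr
      _ ≤ 10 ^ 9 * u ^ 9 := by
        have : 0 ≤ u ^ 9 := by positivity
        nlinarith
  have h3 : 2 * (8 * k * s) ^ 3 * s ≤ 2 * (10 ^ 9 * u ^ 9) ^ 3 * u := by
    have h4 : s ≤ u := by linarith
    have h5 : 0 ≤ 8 * k * s := by positivity
    gcongr
  refine h3.trans ?_
  have h4 : (10 : ℝ) ^ 60 ≤ u ^ 32 := by
    calc (10 : ℝ) ^ 60 ≤ 120 ^ 32 := by norm_num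
      _ ≤ u ^ 32 := by gcongr
  have h5 : u ^ 60 = u ^ 32 * u ^ 28 := by ring
  have h6 : 2 * (10 ^ 9 * u ^ 9) ^ 3 * u = 2 * 10 ^ 27 * u ^ 28 := by ring
  rw [h5, h6]
  have h7 : (2 : ℝ) * 10 ^ 27 ≤ u ^ 32 := le_trans (by norm_num) h4
  gcongr

theorem size_to_bohr (s t : ℝ) (hs : 2 ≤ s) (hst : s ≤ t) (Γ : Finset (ZMod N)) (ε : ZMod N → ℝ)
    (hε : ∀ γ ∈ Γ, ε γ ≤ 1 / (8 * s)) (P : Finset (ZMod N))
    (hP : ∀ x, x ∈ P ↔ ∀ γ ∈ Γ, bn (γ * x) ≤ ε γ) (hcard : s ^ (-t) * (N : ℝ) ≤ (P.card : ℝ)) :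
    ∃ (Γ' : Finset (ZMod N)) (ε' : ℝ), (Γ'.card : ℝ) ≤ 1560 * t ∧ 1 / (1560 * t) ≤ ε' ∧
      ∀ x : ZMod N, (∀ γ ∈ Γ', bn (γ * x) ≤ ε') → x ∈ P := by
  have hs0 : 0 < s := by linarith
  have ht0 : 0 < t := by linarith
  have hNpos : (0 : ℝ) < (N : ℝ) := by exact_mod_cast Nat.pos_of_ne_zero (NeZero.ne N)
  have hPe : P = bset Γ ε := by
    ext x
    rw [hP, mem_bset]
  rw [hPe] at hcard
  obtain ⟨j, hj, hdb⟩ := scale s t hs hst Γ ε hcard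
  obtain ⟨k, hk⟩ : ∃ k : ℕ, k = ⌈(10 * (60 * t)) ^ 8⌉₊ := ⟨_, rfl⟩
  have hk1 : (10 * (60 * t)) ^ 8 ≤ (k : ℝ) := by rw [hk]; exact Nat.le_ceil _
  have hk2 : (k : ℝ) ≤ (10 * (60 * t)) ^ 8 + 1 := by
    rw [hk]; exact (Nat.ceil_lt_add_one (by positivity)).le
  have hk3 : (1 : ℝ) ≤ k := le_trans (one_le_pow₀ (by linarith)) hk1
  have hk0 : (0 : ℝ) < k := by linarith
  obtain ⟨n, hn1, hn2⟩ := exists_nat_pow_near (x := 4 * k * s) (y := 2)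
    (by nlinarith) (by norm_num)
  obtain ⟨i, hi⟩ : ∃ i, i = n + 1 := ⟨_, rfl⟩
  rw [← hi] at hn2
  have hi2 : (2 : ℝ) ^ i ≤ 8 * k * s := by
    rw [hi, pow_succ]; linarith
  have h2t : (0 : ℝ) < (2 : ℝ) ^ t := Real.rpow_pos_of_pos (by norm_num) _
  -- the doubling at scale `j`
  have hsh := shrink Γ (fun γ => (2 : ℝ) ^ j * ε γ) (by
    intro γ hγ
    have h1 := hε γ hγ
    have h2 : (2 : ℝ) ^ j * ε γ ≤ (2 : ℝ) ^ j * (1 / (8 * s)) := by gcongr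
    have h3 : (2 : ℝ) ^ j * (1 / (8 * s)) ≤ s * (1 / (8 * s)) := by gcongr
    have h4 : s * (1 / (8 * s)) = 1 / 8 := by field_simp
    linarith) ((2 : ℝ) ^ t) h2t.le (by
    have e : (fun γ => 2 * ((2 : ℝ) ^ j * ε γ)) = fun γ : ZMod N => (2 : ℝ) ^ (j + 1) * ε γ := by
      funext γ
      ring
    rw [e]
    exact hdb) i
  obtain ⟨T, hT⟩ : ∃ T, T = bset Γ (fun γ => 2 * ((2 : ℝ) ^ j * ε γ) / (2 : ℝ) ^ i) := ⟨_, rfl⟩
  rw [← hT] at hsh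
  have hmono : ((bset Γ ε).card : ℝ) ≤ ((bset Γ (fun γ => (2 : ℝ) ^ j * ε γ)).card : ℝ) := by
    have h1 : bset Γ ε ⊆ bset Γ (fun γ => (2 : ℝ) ^ j * ε γ) := by
      intro x hx
      rw [mem_bset] at hx ⊢
      intro γ hγ
      have h2 := hx γ hγ
      have h3 : 0 ≤ bn (γ * x) := abs_nonneg _
      have h4 : (1 : ℝ) ≤ (2 : ℝ) ^ j := one_le_pow₀ (by norm_num)
      nlinarith
    exact_mod_cast card_le_card h1
  have hTc : (60 * t) ^ (-(60 * t)) * (N : ℝ) ≤ (T.card : ℝ) := by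
    have h1 : s ^ (-t) * (N : ℝ) ≤ ((2 : ℝ) ^ t) ^ (3 * i + 1) * T.card :=
      hcard.trans (hmono.trans hsh)
    have h2 : ((2 : ℝ) ^ t) ^ (3 * i + 1) * s ^ t ≤ (60 * t) ^ (60 * t) := by
      have e1 : ((2 : ℝ) ^ t) ^ (3 * i + 1) = ((2 : ℝ) ^ (3 * i + 1)) ^ t := by
        rw [← Real.rpow_natCast, ← Real.rpow_mul (by norm_num),
          ← Real.rpow_natCast (2 : ℝ) (3 * i + 1), ← Real.rpow_mul (by norm_num), mul_comm]
      rw [e1, ← Real.mul_rpow (by positivity) hs0.le]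
      have e2 : (2 : ℝ) ^ (3 * i + 1) * s ≤ (60 * t) ^ 60 := by
        have e3 : (2 : ℝ) ^ (3 * i + 1) * s = 2 * ((2 : ℝ) ^ i) ^ 3 * s := by
          rw [← pow_mul, pow_succ, mul_comm 3 i]; ring
        rw [e3]
        refine le_trans ?_ (num s t k hs hst hk0.le hk2)
        gcongr
      calc ((2 : ℝ) ^ (3 * i + 1) * s) ^ t ≤ ((60 * t) ^ 60) ^ t :=
            Real.rpow_le_rpow (by positivity) e2 ht0.le
        _ = (60 * t) ^ (60 * t) := by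
            rw [← Real.rpow_natCast (60 * t) 60, ← Real.rpow_mul (by positivity)]
            norm_num
    have h3 : (N : ℝ) ≤ (((2 : ℝ) ^ t) ^ (3 * i + 1) * s ^ t) * T.card := by
      have e1 : s ^ t * (s ^ (-t) * (N : ℝ)) = N := by
        rw [← mul_assoc, ← Real.rpow_add hs0, add_neg_cancel, Real.rpow_zero, one_mul]
      calc (N : ℝ) = s ^ t * (s ^ (-t) * (N : ℝ)) := e1.symm
        _ ≤ s ^ t * (((2 : ℝ) ^ t) ^ (3 * i + 1) * T.card) := by gcongr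
        _ = _ := by ring
    have h4 : (N : ℝ) ≤ (60 * t) ^ (60 * t) * T.card :=
      h3.trans (mul_le_mul_of_nonneg_right h2 (Nat.cast_nonneg _))
    have h5 : 0 < (60 * t) ^ (60 * t) := Real.rpow_pos_of_pos (by positivity) _
    rw [Real.rpow_neg (by positivity), inv_mul_le_iff₀ h5]
    exact h4
  obtain ⟨Γ', ε', hΓ', hε', hsub⟩ := sumset_to_bohr (60 * t) (by linarith) T hTc k hk1
  refine ⟨Γ', ε', by linarith, ?_, ?_⟩
  · have e : 1 / (1560 * t) = 1 / (26 * (60 * t)) := by ring_nf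
    rw [e]
    exact hε'
  · intro x hx
    obtain ⟨a, b, ha, hb, rfl⟩ := hsub x hx
    rw [hPe, mem_bset]
    intro γ hγ
    have hmem : ∀ y ∈ T, bn (γ * y) ≤ 2 * ((2 : ℝ) ^ j * ε γ) / (2 : ℝ) ^ i := by
      intro y hy
      rw [hT, mem_bset] at hy
      exact hy γ hγ
    refine (SumC_bn_sum γ a b _ (fun i => hmem _ (ha i)) (fun i => hmem _ (hb i))).trans ?_
    have hε0 : 0 ≤ ε γ := by
      have hk' : 0 < k := by exact_mod_cast hk0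
      have h1 := hmem _ (ha ⟨0, hk'⟩)
      have h2 : 0 ≤ bn (γ * a ⟨0, hk'⟩) := abs_nonneg _
      have h3 : 0 ≤ 2 * ((2 : ℝ) ^ j * ε γ) / (2 : ℝ) ^ i := h2.trans h1
      have h4 : 0 ≤ 2 * ((2 : ℝ) ^ j * ε γ) := by
        have h5 : (0 : ℝ) < (2 : ℝ) ^ i := by positivity
        rw [le_div_iff₀ h5, zero_mul] at h3
        exact h3
      have h6 : (0 : ℝ) < (2 : ℝ) ^ j := by positivity
      by_contra hneg
      push Not at hneg
      nlinarith [mul_neg_of_pos_of_neg h6 hneg]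
    have e : 2 * (k : ℝ) * (2 * ((2 : ℝ) ^ j * ε γ) / (2 : ℝ) ^ i)
        = (4 * k * (2 : ℝ) ^ j) * ε γ / (2 : ℝ) ^ i := by ring
    rw [e, div_le_iff₀ (by positivity)]
    have h1 : 4 * (k : ℝ) * (2 : ℝ) ^ j ≤ (2 : ℝ) ^ i := by
      calc 4 * (k : ℝ) * (2 : ℝ) ^ j ≤ 4 * k * s := by gcongr
        _ ≤ (2 : ℝ) ^ i := hn2.le
    nlinarith

end Pool.H77.SZ
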