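import Pool.Agent.H77.SZ.Fin

set_option autoImplicit false

/-!
A Bohr set contains `2A - 2A` with `A` of small relative doubling.

`A = B(Γ, ρ)`, `P = B(Γ, η)`, `η = 1/(8tm)`, `m = ⌈8t²⌉`, `ρ = 1/(8t) + jη`, `j < m`, by
pigeonhole `|A + P| ≤ e |A|`. `P` contains the Bohr set of radius `1/(2q)`, `q = ⌈t⌉`, with the
frequencies `q^l γ`, `l ≤ 8`.
-/

namespace Pool.H77.SZ

open Finset Pool.H84.CP Pool.H84.IT

variable {N : ℕ} [NeZero N]

theorem small_bohr (t : ℝ) (ht : 2 ≤ t) (Γ : Finset (ZMod N)) (hΓ : (Γ.card : ℝ) ≤ t) (η : ℝ)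
    (hη : 1 / (72 * t ^ 3) ≤ η) :
    ∃ (Γ' : Finset (ZMod N)) (ε' : ℝ), (Γ'.card : ℝ) ≤ 26 * t ∧ 1 / (26 * t) ≤ ε' ∧
      ∀ x : ZMod N, (∀ γ ∈ Γ', bn (γ * x) ≤ ε') → ∀ γ ∈ Γ, bn (γ * x) ≤ η := by
  classical
  have ht0 : 0 < t := by linarith
  obtain ⟨q, hq⟩ : ∃ q : ℕ, q = ⌈t⌉₊ := ⟨_, rfl⟩
  have hq1 : t ≤ (q : ℝ) := by rw [hq]; exact Nat.le_ceil _
  have hq2 : (q : ℝ) ≤ t + 1 := by rw [hq]; exact (Nat.ceil_lt_add_one ht0.le).le
  have hq3 : 2 ≤ q := by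
    have : (2 : ℝ) ≤ q := ht.trans hq1
    exact_mod_cast this
  refine ⟨(range 9 ×ˢ Γ).image (fun p => (q : ZMod N) ^ p.1 * p.2), 1 / (2 * (q : ℝ)), ?_, ?_, ?_⟩
  · have h1 : (((range 9 ×ˢ Γ).image (fun p => (q : ZMod N) ^ p.1 * p.2)).card : ℝ)
        ≤ ((range 9 ×ˢ Γ).card : ℝ) := by exact_mod_cast card_image_le
    rw [card_product, card_range] at h1
    push_cast at h1
    linarith
  · apply one_div_le_one_div_of_le (by positivity)
    linarith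
  · intro x hx γ hγ
    have h1 := bn_digits q hq3 (γ * x) 8 (by
      intro j hj
      have h2 := hx ((q : ZMod N) ^ j * γ)
        (mem_image.2 ⟨(j, γ), mem_product.2 ⟨mem_range.2 (by omega), hγ⟩, rfl⟩)
      rwa [mul_assoc] at h2)
    refine h1.trans (le_trans ?_ hη)
    rw [div_div]
    apply one_div_le_one_div_of_le (by positivity)
    have h3 : (64 : ℝ) ≤ t ^ 6 := by
      calc (64 : ℝ) = 2 ^ 6 := by norm_num
        _ ≤ t ^ 6 := by gcongr
    calc 72 * t ^ 3 ≤ 2 * t ^ 6 * t ^ 3 := by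
          have : 0 ≤ t ^ 3 := by positivity
          nlinarith
      _ = 2 * t * t ^ 8 := by ring
      _ ≤ 2 * (q : ℝ) * (q : ℝ) ^ 8 := by gcongr

theorem bohr_to_rel (t : ℝ) (ht : 2 ≤ t) (Γ : Finset (ZMod N)) (ε : ℝ)
    (hΓ : (Γ.card : ℝ) ≤ t) (hε : 1 / t ≤ ε) :
    ∃ (A P : Finset (ZMod N)), A.Nonempty ∧
      (∃ (Γ' : Finset (ZMod N)) (ε' : ℝ), (Γ'.card : ℝ) ≤ 26 * t ∧ 1 / (26 * t) ≤ ε' ∧
        ∀ x : ZMod N, (∀ γ ∈ Γ', bn (γ * x) ≤ ε') → x ∈ P) ∧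
      (((A ×ˢ P).image (fun p => p.1 + p.2)).card : ℝ) ≤ Real.exp (Real.sqrt (26 * t)) * A.card ∧
      ∀ a₁ ∈ A, ∀ a₂ ∈ A, ∀ a₃ ∈ A, ∀ a₄ ∈ A, ∀ γ ∈ Γ, bn (γ * (a₁ + a₂ - a₃ - a₄)) ≤ ε := by
  classical
  have ht0 : 0 < t := by linarith
  have hNpos : (0 : ℝ) < (N : ℝ) := by exact_mod_cast Nat.pos_of_ne_zero (NeZero.ne N)
  obtain ⟨m, hm⟩ : ∃ m : ℕ, m = ⌈8 * t ^ 2⌉₊ := ⟨_, rfl⟩
  have hm1 : 8 * t ^ 2 ≤ (m : ℝ) := by rw [hm]; exact Nat.le_ceil _
  have hm2 : (m : ℝ) ≤ 8 * t ^ 2 + 1 := by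
    rw [hm]; exact (Nat.ceil_lt_add_one (by positivity)).le
  have hm3 : (m : ℝ) ≤ 9 * t ^ 2 := by nlinarith
  have hm0 : (0 : ℝ) < m := lt_of_lt_of_le (by positivity) hm1
  have hm0' : 0 < m := by exact_mod_cast hm0
  obtain ⟨η, hη⟩ : ∃ η : ℝ, η = 1 / (8 * t * m) := ⟨_, rfl⟩
  have hη0 : 0 < η := by rw [hη]; positivity
  have hmη : (m : ℝ) * η = 1 / (8 * t) := by rw [hη]; field_simp
  let B : ℕ → Finset (ZMod N) := fun j => bset Γ (fun _ => 1 / (8 * t) + j * η)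
  have hB0 : ∀ j, (0 : ZMod N) ∈ B j := by
    intro j
    rw [mem_bset]
    intro γ _
    rw [mul_zero]
    have : bn (0 : ZMod N) = 0 := by unfold bn; simp
    rw [this]
    positivity
  have hpig : ∃ j < m, ((B (j + 1)).card : ℝ) ≤ Real.exp 1 * (B j).card := by
    by_contra hno
    push Not at hno
    have hlow : ∀ j ≤ m, Real.exp j * ((B 0).card : ℝ) ≤ ((B j).card : ℝ) := by
      intro j
      induction j with
      | zero => intro _; simp
      | succ j ih =>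
        intro hj
        have h1 := hno j (by omega)
        have h2 := ih (by omega)
        push_cast
        rw [Real.exp_add, mul_comm (Real.exp j), mul_assoc]
        exact (mul_le_mul_of_nonneg_left h2 (Real.exp_pos 1).le).trans h1.le
    obtain ⟨l, rfl⟩ : ∃ l, m = l + 1 := ⟨m - 1, by omega⟩
    have h1 := hno l (by omega)
    have h2 := hlow l (by omega)
    have h3 : ((B (l + 1)).card : ℝ) ≤ N := by
      have := card_le_univ (B (l + 1))
      rw [ZMod.card] at this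
      exact_mod_cast this
    have h4 := bohr_card Γ (1 / (8 * t)) (by positivity) (B 0) (by
      intro x
      rw [mem_bset]
      simp)
    have h5 : (1 + 1 / (1 / (8 * t))) ^ Γ.card ≤ Real.exp ((l + 1 : ℕ) : ℝ) := by
      rw [one_div_one_div]
      have e1 : 1 + 8 * t ≤ Real.exp (8 * t) := by
        have := Real.add_one_le_exp (8 * t)
        linarith
      calc (1 + 8 * t) ^ Γ.card ≤ (Real.exp (8 * t)) ^ Γ.card := by gcongr
        _ = Real.exp (Γ.card * (8 * t)) := by rw [← Real.exp_nat_mul]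
        _ ≤ Real.exp ((l + 1 : ℕ) : ℝ) := by
          apply Real.exp_le_exp.2
          have : (Γ.card : ℝ) * (8 * t) ≤ t * (8 * t) := by gcongr
          nlinarith
    have h6 : (N : ℝ) ≤ ((B 0).card : ℝ) * Real.exp ((l + 1 : ℕ) : ℝ) :=
      h4.trans (mul_le_mul_of_nonneg_left h5 (Nat.cast_nonneg _))
    have h7 : Real.exp ((l + 1 : ℕ) : ℝ) = Real.exp 1 * Real.exp (l : ℝ) := by
      push_cast
      rw [Real.exp_add, mul_comm]
    rw [h7] at h6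
    have h8 : Real.exp 1 * (Real.exp (l : ℝ) * ((B 0).card : ℝ)) ≤ Real.exp 1 * (B l).card :=
      mul_le_mul_of_nonneg_left h2 (Real.exp_pos 1).le
    have h9 : (N : ℝ) < N := by
      calc (N : ℝ) ≤ ((B 0).card : ℝ) * (Real.exp 1 * Real.exp (l : ℝ)) := h6
        _ = Real.exp 1 * (Real.exp (l : ℝ) * ((B 0).card : ℝ)) := by ring
        _ ≤ Real.exp 1 * (B l).card := h8
        _ < ((B (l + 1)).card : ℝ) := h1
        _ ≤ N := h3
    exact lt_irrefl _ h9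
  obtain ⟨j, hj, hjB⟩ := hpig
  refine ⟨B j, bset Γ (fun _ => η), ⟨0, hB0 j⟩, ?_, ?_, ?_⟩
  · obtain ⟨Γ', ε', h1, h2, h3⟩ := small_bohr t ht Γ hΓ η (by
      rw [hη]
      apply one_div_le_one_div_of_le (by positivity)
      calc 8 * t * (m : ℝ) ≤ 8 * t * (9 * t ^ 2) := by gcongr
        _ = 72 * t ^ 3 := by ring)
    exact ⟨Γ', ε', h1, h2, fun x hx => (mem_bset _ _ _).2 (h3 x hx)⟩
  · have h1 : (B j ×ˢ bset Γ (fun _ => η)).image (fun p => p.1 + p.2) ⊆ B (j + 1) := by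
      intro v hv
      rw [mem_image] at hv
      obtain ⟨⟨x, y⟩, hxy, rfl⟩ := hv
      rw [mem_product] at hxy
      have hx := (mem_bset _ _ _).1 hxy.1
      have hy := (mem_bset _ _ _).1 hxy.2
      rw [mem_bset]
      intro γ hγ
      have h2 := hx γ hγ
      have h3 := hy γ hγ
      simp only at h2 h3 ⊢
      rw [bn_eq_norm] at h2 h3 ⊢
      rw [mul_add, map_add]
      have h4 := norm_add_le (ZMod.toAddCircle (γ * x) : UnitAddCircle) (ZMod.toAddCircle (γ * y))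
      push_cast
      linarith
    have h2 : (((B j ×ˢ bset Γ (fun _ => η)).image (fun p => p.1 + p.2)).card : ℝ)
        ≤ ((B (j + 1)).card : ℝ) := by exact_mod_cast card_le_card h1
    refine h2.trans (hjB.trans ?_)
    have h3 : (1 : ℝ) ≤ Real.sqrt (26 * t) := by
      rw [Real.one_le_sqrt]; linarith
    gcongr
  · intro a₁ h₁ a₂ h₂ a₃ h₃ a₄ h₄ γ hγ
    have e₁ := (mem_bset _ _ _).1 h₁ γ hγ
    have e₂ := (mem_bset _ _ _).1 h₂ γ hγ
    have e₃ := (mem_bset _ _ _).1 h₃ γ hγ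
    have e₄ := (mem_bset _ _ _).1 h₄ γ hγ
    rw [bn_eq_norm] at e₁ e₂ e₃ e₄ ⊢
    rw [mul_sub, mul_sub, mul_add, map_sub, map_sub, map_add]
    have f₁ := norm_add_le (ZMod.toAddCircle (γ * a₁) : UnitAddCircle) (ZMod.toAddCircle (γ * a₂))
    have f₂ := norm_sub_le ((ZMod.toAddCircle (γ * a₁) : UnitAddCircle) + ZMod.toAddCircle (γ * a₂))
      (ZMod.toAddCircle (γ * a₃))
    have f₃ := norm_sub_le ((ZMod.toAddCircle (γ * a₁) : UnitAddCircle) + ZMod.toAddCircle (γ * a₂)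
      - ZMod.toAddCircle (γ * a₃)) (ZMod.toAddCircle (γ * a₄))
    have h5 : (j : ℝ) * η ≤ 1 / (8 * t) := by
      rw [← hmη]
      have : (j : ℝ) ≤ m := by exact_mod_cast hj.le
      gcongr
    have h6 : 4 * (1 / (8 * t) + 1 / (8 * t)) = 1 / t := by field_simp; norm_num
    linarith

end Pool.H77.SZ
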