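import Pool.Agent.H77.SZ.Abs
import Pool.Agent.H84.IT.Rep

set_option autoImplicit false

/-!
Bohr sets with any number of frequencies: the size of the shrunk sets.

`shrink`: if all the radii are at most `1/8` and `|B(Γ, 2ε)| ≤ K |B(Γ, ε)|` then
`|B(Γ, ε)| ≤ K^(3i+1) |B(Γ, 2ε/2^i)|`. There is no condition on the number of frequencies.
-/

namespace Pool.H77.SZ

open Finset Pool.H84.CP Pool.H84.IT
open scoped Pointwise

variable {N : ℕ} [NeZero N]

/-- The Bohr set with frequencies in `Γ` and radii `ε γ`. -/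
noncomputable def bset (Γ : Finset (ZMod N)) (ε : ZMod N → ℝ) : Finset (ZMod N) :=
  univ.filter (fun x => ∀ γ ∈ Γ, bn (γ * x) ≤ ε γ)

theorem mem_bset (Γ : Finset (ZMod N)) (ε : ZMod N → ℝ) (x : ZMod N) :
    x ∈ bset Γ ε ↔ ∀ γ ∈ Γ, bn (γ * x) ≤ ε γ := by
  unfold bset; simp

/-- The vector of the representatives of `γ x / N`. -/
noncomputable def lf (Γ : Finset (ZMod N)) (x : ZMod N) : Γ → ℝ := fun γ => rep ((γ : ZMod N) * x)

theorem lf_eq_iff (Γ : Finset (ZMod N)) (x y : ZMod N) :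
    lf Γ x = lf Γ y ↔ ∀ γ ∈ Γ, γ * (x - y) = 0 := by
  constructor
  · intro h γ hγ
    have h1 : rep (γ * x) = rep (γ * y) := congrFun h ⟨γ, hγ⟩
    have h2 : (ZMod.toAddCircle (γ * x) : UnitAddCircle) = ZMod.toAddCircle (γ * y) := by
      rw [toC_rep, toC_rep, h1]
    have h3 : γ * x = γ * y := ZMod.toAddCircle_injective N h2
    rw [mul_sub, h3, sub_self]
  · intro h
    funext γ
    have h1 := h γ γ.2
    rw [mul_sub, sub_eq_zero] at h1
    unfold lf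
    rw [h1]

/-- The vectors which represent some `(γ y / N)_γ` modulo `1`. -/
def Mg (Γ : Finset (ZMod N)) : AddSubgroup (Γ → ℝ) where
  carrier := {v | ∃ y : ZMod N, ∀ γ : Γ,
    (ZMod.toAddCircle ((γ : ZMod N) * y) : UnitAddCircle) = ((v γ : ℝ) : UnitAddCircle)}
  zero_mem' := ⟨0, fun _ => by simp⟩
  add_mem' := by
    rintro v w ⟨y, hy⟩ ⟨z, hz⟩
    refine ⟨y + z, fun γ => ?_⟩
    rw [mul_add, map_add, hy, hz, Pi.add_apply, AddCircle.coe_add]
  neg_mem' := by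
    rintro v ⟨y, hy⟩
    refine ⟨-y, fun γ => ?_⟩
    rw [mul_neg, map_neg, hy, Pi.neg_apply, AddCircle.coe_neg]

theorem lf_mem (Γ : Finset (ZMod N)) (x : ZMod N) : lf Γ x ∈ Mg Γ :=
  ⟨x, fun γ => toC_rep _⟩

theorem fibre_card (Γ : Finset (ZMod N)) (ε : ZMod N → ℝ) [DecidableEq (Γ → ℝ)] :
    (bset Γ ε).card = ((bset Γ ε).image (lf Γ)).card *
      (univ.filter (fun x : ZMod N => ∀ γ ∈ Γ, γ * x = 0)).card := by
  rw [card_eq_sum_card_image (lf Γ) (bset Γ ε)]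
  rw [← smul_eq_mul]
  refine sum_const_nat ?_ |>.trans rfl
  intro v hv
  rw [mem_image] at hv
  obtain ⟨x₀, hx₀, rfl⟩ := hv
  rw [mem_bset] at hx₀
  refine card_bij' (fun x _ => x - x₀) (fun x _ => x + x₀) ?_ ?_ ?_ ?_
  · intro x hx
    rw [mem_filter] at hx
    rw [mem_filter]
    exact ⟨mem_univ _, (lf_eq_iff Γ x x₀).1 hx.2⟩
  · intro x hx
    rw [mem_filter] at hx
    rw [mem_filter, mem_bset]
    refine ⟨fun γ hγ => ?_, (lf_eq_iff Γ _ _).2 (fun γ hγ => ?_)⟩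
    · rw [mul_add, hx.2 γ hγ, zero_add]
      exact hx₀ γ hγ
    · rw [add_sub_cancel_right]
      exact hx.2 γ hγ
  · intro x _
    simp
  · intro x _
    simp

theorem lf_add (Γ : Finset (ZMod N)) (ε : ZMod N → ℝ) (hε : ∀ γ ∈ Γ, ε γ ≤ 1 / 8) (x y : ZMod N)
    (hx : x ∈ bset Γ ε) (hy : y ∈ bset Γ ε) : lf Γ x + lf Γ y = lf Γ (x + y) := by
  funext γ
  have h1 := (mem_bset Γ ε x).1 hx γ γ.2
  have h2 := (mem_bset Γ ε y).1 hy γ γ.2
  have h3 := hε γ γ.2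
  symm
  refine rep_unique _ _ ?_ ?_
  · have h4 := abs_add_le (lf Γ x γ) (lf Γ y γ)
    have h5 : |lf Γ x γ| = bn ((γ : ZMod N) * x) := rfl
    have h6 : |lf Γ y γ| = bn ((γ : ZMod N) * y) := rfl
    have h7 : |(lf Γ x + lf Γ y) γ| ≤ |lf Γ x γ| + |lf Γ y γ| := h4
    linarith
  · rw [mul_add, map_add, Pi.add_apply, AddCircle.coe_add]
    congr 1
    · exact toC_rep _
    · exact toC_rep _

theorem shrink (Γ : Finset (ZMod N)) (ε : ZMod N → ℝ) (hε : ∀ γ ∈ Γ, ε γ ≤ 1 / 8) (K : ℝ)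
    (hK0 : 0 ≤ K) (hK : ((bset Γ (fun γ => 2 * ε γ)).card : ℝ) ≤ K * (bset Γ ε).card) (i : ℕ) :
    ((bset Γ ε).card : ℝ) ≤
      K ^ (3 * i + 1) * (bset Γ (fun γ => 2 * ε γ / (2 : ℝ) ^ i)).card := by
  classical
  rcases (bset Γ ε).eq_empty_or_nonempty with h0 | hne
  · rw [h0, card_empty]
    push_cast
    positivity
  set h : ℕ := (univ.filter (fun x : ZMod N => ∀ γ ∈ Γ, γ * x = 0)).card with hh
  have hpos : 0 < h := by
    rw [hh]
    refine card_pos.2 ⟨0, ?_⟩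
    rw [mem_filter]
    exact ⟨mem_univ _, fun γ _ => mul_zero γ⟩
  have hpos' : (0 : ℝ) < h := by exact_mod_cast hpos
  set P := (bset Γ ε).image (lf Γ) with hP
  have hPne : P.Nonempty := hne.image _
  have e1 : ((bset Γ ε).card : ℝ) = P.card * h := by
    exact_mod_cast fibre_card Γ ε
  have e2 : ((bset Γ (fun γ => 2 * ε γ)).card : ℝ)
      = ((bset Γ (fun γ => 2 * ε γ)).image (lf Γ)).card * h := by
    exact_mod_cast fibre_card Γ (fun γ => 2 * ε γ)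
  have e3 : ((bset Γ (fun γ => 2 * ε γ / (2 : ℝ) ^ i)).card : ℝ)
      = ((bset Γ (fun γ => 2 * ε γ / (2 : ℝ) ^ i)).image (lf Γ)).card * h := by
    exact_mod_cast fibre_card Γ (fun γ => 2 * ε γ / (2 : ℝ) ^ i)
  have hPP : P + P ⊆ (bset Γ (fun γ => 2 * ε γ)).image (lf Γ) := by
    intro v hv
    rw [mem_add] at hv
    obtain ⟨a, ha, b, hb, rfl⟩ := hv
    rw [hP, mem_image] at ha hb
    obtain ⟨x, hx, rfl⟩ := ha
    obtain ⟨y, hy, rfl⟩ := hb
    rw [lf_add Γ ε hε x y hx hy]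
    refine mem_image_of_mem _ ((mem_bset _ _ _).2 fun γ hγ => ?_)
    have h1 := (mem_bset Γ ε x).1 hx γ hγ
    have h2 := (mem_bset Γ ε y).1 hy γ hγ
    rw [bn_eq_norm] at h1 h2 ⊢
    rw [mul_add, map_add]
    have h3 := norm_add_le (ZMod.toAddCircle (γ * x) : UnitAddCircle) (ZMod.toAddCircle (γ * y))
    linarith
  have hKP : ((P + P).card : ℝ) ≤ K * P.card := by
    have h1 : ((P + P).card : ℝ) * h ≤ (K * P.card) * h := by
      calc ((P + P).card : ℝ) * h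
          ≤ ((bset Γ (fun γ => 2 * ε γ)).image (lf Γ)).card * h := by
            gcongr
        _ = ((bset Γ (fun γ => 2 * ε γ)).card : ℝ) := e2.symm
        _ ≤ K * (bset Γ ε).card := hK
        _ = (K * P.card) * h := by rw [e1]; ring
    exact le_of_mul_le_mul_right h1 hpos'
  obtain ⟨v₀, hv₀, C, hCP, hC, hcard⟩ := class_card (Mg Γ) P hPne (by
    intro v hv
    rw [hP, mem_image] at hv
    obtain ⟨x, _, rfl⟩ := hv
    exact lf_mem Γ x) K hKP i
  have hbd : ∀ v ∈ P, ∀ γ : Γ, |v γ| ≤ ε γ := by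
    intro v hv γ
    rw [hP, mem_image] at hv
    obtain ⟨x, hx, rfl⟩ := hv
    exact (mem_bset Γ ε x).1 hx γ γ.2
  have hCle : C.card ≤ ((bset Γ (fun γ => 2 * ε γ / (2 : ℝ) ^ i)).image (lf Γ)).card := by
    refine card_le_card_of_injOn (fun v => ((2 : ℝ) ^ i)⁻¹ • (v - v₀)) ?_ ?_
    · intro v hv
      obtain ⟨w, ⟨y, hy⟩, hw⟩ := hC v hv
      have h1 : ((2 : ℝ) ^ i)⁻¹ • (v - v₀) = w := by
        rw [hw, smul_smul, inv_mul_cancel₀ (by positivity), one_smul]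
      have h2 : ∀ γ : Γ, |w γ| ≤ 2 * ε γ / (2 : ℝ) ^ i := by
        intro γ
        have h3 : w γ = ((2 : ℝ) ^ i)⁻¹ * (v γ - v₀ γ) := by rw [← h1]; rfl
        have h4 := hbd v (hCP hv) γ
        have h5 := hbd v₀ hv₀ γ
        have h6 : |v γ - v₀ γ| ≤ |v γ| + |v₀ γ| := abs_sub _ _
        rw [h3, abs_mul, abs_of_pos (by positivity : (0 : ℝ) < ((2 : ℝ) ^ i)⁻¹), div_eq_inv_mul]
        have h7 : (0 : ℝ) < ((2 : ℝ) ^ i)⁻¹ := by positivity
        exact mul_le_mul_of_nonneg_left (by linarith) h7.le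
      have h3 : ∀ γ : Γ, rep ((γ : ZMod N) * y) = w γ := by
        intro γ
        refine rep_unique _ _ ?_ (hy γ)
        have h4 := h2 γ
        have h5 := hε γ γ.2
        have h6 : 0 ≤ ε γ := le_trans (abs_nonneg _) (hbd v (hCP hv) γ)
        have h7 : 2 * ε γ / (2 : ℝ) ^ i ≤ 2 * ε γ := by
          apply div_le_self (by linarith)
          exact one_le_pow₀ (by norm_num)
        linarith
      show ((2 : ℝ) ^ i)⁻¹ • (v - v₀) ∈
        (((bset Γ (fun γ => 2 * ε γ / (2 : ℝ) ^ i)).image (lf Γ) : Finset (Γ → ℝ)) : Set (Γ → ℝ))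
      rw [h1, mem_coe, mem_image]
      refine ⟨y, (mem_bset _ _ _).2 fun γ hγ => ?_, funext fun γ => h3 γ⟩
      have h4 := h2 ⟨γ, hγ⟩
      have h5 := h3 ⟨γ, hγ⟩
      rw [← h5] at h4
      exact h4
    · intro v _ v' _ hvv
      have h1 : ((2 : ℝ) ^ i)⁻¹ • (v - v₀) = ((2 : ℝ) ^ i)⁻¹ • (v' - v₀) := hvv
      have h2 : v - v₀ = v' - v₀ := by
        have h3 := congrArg (fun u => (2 : ℝ) ^ i • u) h1
        simp only [smul_smul] at h3
        rw [mul_inv_cancel₀ (by positivity : (2 : ℝ) ^ i ≠ 0), one_smul, one_smul] at h3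
        exact h3
      exact sub_left_injective h2
  calc ((bset Γ ε).card : ℝ) = P.card * h := e1
    _ ≤ (K ^ (3 * i + 1) * C.card) * h := by gcongr
    _ ≤ (K ^ (3 * i + 1) *
        ((bset Γ (fun γ => 2 * ε γ / (2 : ℝ) ^ i)).image (lf Γ)).card) * h := by gcongr
    _ = K ^ (3 * i + 1) * (bset Γ (fun γ => 2 * ε γ / (2 : ℝ) ^ i)).card := by rw [e3]; ring

end Pool.H77.SZ
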